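import Pool.Agent.Run7.h589.Fin3

namespace Pool.Agent.Results.MP_00538b_an.BoundedFamily

open Run7.h589

/-- There is one family of bounded unitary matrices (with one constant `K`) such that, for every
`ε ∈ (0, 1)`, the number `k_U(m)` of random rows needed for the `m`-RIP is at most `C(ε) m log d`
for all `1 ≤ m ≤ d ^ (1 - ε)`. -/
theorem result : ∃ K : ℝ, 0 < K ∧ ∃ U : (d : ℕ) → Matrix (Fin d) (Fin d) ℂ,
    (∀ d, 2 ≤ d → U d ∈ Matrix.unitaryGroup (Fin d) ℂ ∧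
      ∀ i j, ‖U d i j‖ ≤ K / Real.sqrt d) ∧
    ∀ ε : ℝ, 0 < ε → ε < 1 → ∃ C : ℝ, 0 < C ∧ ∀ d m : ℕ, 2 ≤ d → 1 ≤ m →
      (m : ℝ) ≤ (d : ℝ) ^ (1 - ε) →
      1 / 2 ≤ ripProb (U d) m (kU (U d) m) ∧ (kU (U d) m : ℝ) ≤ C * m * Real.log d :=
  Run7.h589.main_theorem

end Pool.Agent.Results.MP_00538b_an.BoundedFamily
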